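import Pool.Agent.Work.MP_403fb3_al_helper9.Final

/-!
# Two-generator soluble groups in the varieties generated by the alternating groups

Q1 holds for every alternating group: every derived length of a soluble subgroup of `Alt(n)` is the
derived length of a 2-generator subgroup of `Alt(n)`. The derived lengths which occur are
determined for every `n`.
-/

namespace Pool.Agent.Results.MP_403fb3_al.Alternating

open Subgroup

/-- The subgroup `K` is soluble of derived length exactly `d`. -/
def HasLength {G : Type} [Group G] (K : Subgroup G) (d : ℕ) : Prop :=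
  derivedSeries K d = ⊥ ∧ ∀ m < d, derivedSeries K m ≠ ⊥

/-- `symDeg d` is the least degree of a soluble permutation group of derived length `d`: the
values are `0, 2, 3, 4, 8, 9, 16, 27, 36, 64` and `symDeg (d + 10) = 9 * symDeg (d + 5)`. -/
def symDeg : ℕ → ℕ
  | 0 => 0
  | 1 => 2
  | 2 => 3
  | 3 => 4
  | 4 => 8
  | 5 => 9
  | 6 => 16
  | 7 => 27
  | 8 => 36
  | 9 => 64
  | (d + 10) => 9 * symDeg (d + 5)

/-- `altDeg d` is the least degree of a soluble group of even permutations of derived length `d`: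
the values are `0, 3, 4, 6, 8, 11`, and `symDeg d` for `d ≥ 6`. -/
def altDeg : ℕ → ℕ
  | 0 => 0
  | 1 => 3
  | 2 => 4
  | 3 => 6
  | 4 => 8
  | 5 => 11
  | (d + 6) => symDeg (d + 6)

theorem symDeg_eq (d : ℕ) : symDeg (d + 1) = Pool.Agent.Work.MP_403fb3_al_helper9.fj (d + 1) := by
  induction d using Nat.strong_induction_on with
  | _ d ih =>
    rcases d with _ | _ | _ | _ | _ | _ | _ | _ | _ | d
    all_goals try rfl
    change 9 * symDeg (d + 5) = 9 * Pool.Agent.Work.MP_403fb3_al_helper9.fj (d + 5)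
    rw [ih (d + 4) (by omega)]

theorem altDeg_eq (d : ℕ) : altDeg (d + 1) = Pool.Agent.Work.MP_403fb3_al_helper9.am d := by
  rcases d with _ | _ | _ | _ | _ | d
  all_goals try rfl
  change symDeg (d + 6) = Pool.Agent.Work.MP_403fb3_al_helper9.fj (d + 6)
  exact symDeg_eq (d + 5)

theorem result (n d : ℕ) :
    -- `Alt(n)` has a soluble subgroup of derived length exactly `d` iff `altDeg d ≤ n`
    ((∃ K : Subgroup (alternatingGroup (Fin n)), HasLength K d) ↔ altDeg d ≤ n) ∧
    -- and then it has a 2-generator one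
    ((∃ K : Subgroup (alternatingGroup (Fin n)), HasLength K d) →
      ∃ a b : alternatingGroup (Fin n), HasLength (closure {a, b}) d) ∧
    -- hence the conclusion of Q1 for `G = Alt(n)`, in the wording of the frozen statement
    ((∃ K : Subgroup (alternatingGroup (Fin n)), HasLength K d) →
      ∃ (H : Type) (_ : Group H),
        (∀ (k : ℕ) (w : FreeGroup (Fin k)),
            (∀ f : Fin k → alternatingGroup (Fin n), FreeGroup.lift f w = 1) →
              ∀ f : Fin k → H, FreeGroup.lift f w = 1) ∧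
        (∃ a b : H, Subgroup.closure ({a, b} : Set H) = ⊤) ∧
        derivedSeries H d = ⊥ ∧ ∀ m < d, derivedSeries H m ≠ ⊥) ∧
    -- the same for the symmetric groups
    ((∃ K : Subgroup (Equiv.Perm (Fin n)), HasLength K d) ↔ symDeg d ≤ n) ∧
    ((∃ K : Subgroup (Equiv.Perm (Fin n)), HasLength K d) →
      ∃ a b : Equiv.Perm (Fin n), HasLength (closure {a, b}) d) := by
  have hA1 : (∃ K : Subgroup (alternatingGroup (Fin n)), HasLength K d) → altDeg d ≤ n := by
    rintro ⟨K, h1, h2⟩
    rcases d with _ | d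
    · exact Nat.zero_le n
    · rw [altDeg_eq]
      exact Pool.Agent.Work.MP_403fb3_al_helper9.alt_lower K h1 (h2 d (Nat.lt_succ_self d))
  have hA2 : altDeg d ≤ n → ∃ a b : alternatingGroup (Fin n), HasLength (closure {a, b}) d := by
    intro h
    rcases d with _ | d
    · exact ⟨1, 1, Pool.Agent.Work.MP_403fb3_al_helper9.closure_one_one _,
        fun m hm => absurd hm (Nat.not_lt_zero m)⟩
    · rw [altDeg_eq] at h
      obtain ⟨a, b, hab⟩ := Pool.Agent.Work.MP_403fb3_al_helper9.alt_exists h
      exact ⟨a, b, hab.closure⟩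
  have hS1 : (∃ K : Subgroup (Equiv.Perm (Fin n)), HasLength K d) → symDeg d ≤ n := by
    rintro ⟨K, h1, h2⟩
    rcases d with _ | d
    · exact Nat.zero_le n
    · rw [symDeg_eq]
      exact Pool.Agent.Work.MP_403fb3_al_helper9.sym_lower K h1 (h2 d (Nat.lt_succ_self d))
  have hS2 : symDeg d ≤ n → ∃ a b : Equiv.Perm (Fin n), HasLength (closure {a, b}) d := by
    intro h
    rcases d with _ | d
    · exact ⟨1, 1, Pool.Agent.Work.MP_403fb3_al_helper9.closure_one_one _,
        fun m hm => absurd hm (Nat.not_lt_zero m)⟩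
    · rw [symDeg_eq] at h
      obtain ⟨a, b, hab⟩ := Pool.Agent.Work.MP_403fb3_al_helper9.sym_exists h
      exact ⟨a, b, hab.closure⟩
  refine ⟨⟨hA1, fun h => ?_⟩, fun h => hA2 (hA1 h), fun h => ?_, ⟨hS1, fun h => ?_⟩,
    fun h => hS2 (hS1 h)⟩
  · obtain ⟨a, b, hab⟩ := hA2 h
    exact ⟨_, hab⟩
  · obtain ⟨a, b, hab⟩ := hA2 (hA1 h)
    exact Pool.Agent.Work.MP_403fb3_al_helper9.variety_of_pair a b hab
  · obtain ⟨a, b, hab⟩ := hS2 h
    exact ⟨_, hab⟩

end Pool.Agent.Results.MP_403fb3_al.Alternating
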