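import Pool.Agent.Work.MP_403fb3_h27.All

/-!
# Q1 up to an additive constant

If a finite group `G` is a quotient, by a soluble normal subgroup, of a finite linear group of
degree `n ≤ R (m + 1)` and contains `Alt(m)`, then the conclusion of Q1 holds for `G` with `d - c`
in place of `d`, where `c` depends only on `R`. One `c` works for all the groups `PSL_n(F)`,
`PSp_2n(F)`, `PSU_n(F)` and `POmega_n(F)` over all finite fields.
-/

namespace Pool.Agent.Results.MP_403fb3_al.BoundedError

open Subgroup

/-- The subgroup `K` is soluble of derived length exactly `d`. -/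
def HasLength {G : Type} [Group G] (K : Subgroup G) (d : ℕ) : Prop :=
  derivedSeries K d = ⊥ ∧ ∀ m < d, derivedSeries K m ≠ ⊥

/-- The conclusion of Q1 for `G` and `d` (in the wording of the frozen statement): some group
generated by two elements satisfies every law of `G` and has derived length exactly `d`. -/
def InVar (G : Type) [Group G] (d : ℕ) : Prop :=
  ∃ (H : Type) (_ : Group H),
    (∀ (k : ℕ) (w : FreeGroup (Fin k)),
        (∀ f : Fin k → G, FreeGroup.lift f w = 1) →
          ∀ f : Fin k → H, FreeGroup.lift f w = 1) ∧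
    (∃ a b : H, Subgroup.closure ({a, b} : Set H) = ⊤) ∧
    derivedSeries H d = ⊥ ∧ ∀ m < d, derivedSeries H m ≠ ⊥

/-- If `G` has a soluble subgroup of derived length exactly `d` then, for every `e ≤ d - c`, some
two elements of `G` generate a soluble group of derived length exactly `e`, and the conclusion of
Q1 holds for `G` and `e`. -/
def UpTo (c : ℕ) (G : Type) [Group G] : Prop :=
  ∀ d : ℕ, (∃ S : Subgroup G, HasLength S d) → ∀ e : ℕ, e + c ≤ d →
    (∃ x y : G, HasLength (Subgroup.closure ({x, y} : Set G)) e) ∧ InVar G e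

/-- The same for the group `Γ` modulo its centre. -/
def UpToMod (c : ℕ) (Γ : Type) [Group Γ] : Prop := UpTo c (Γ ⧸ Subgroup.center Γ)

theorem result :
    -- `G = Γ / ker π`, `Γ` a finite linear group of degree `n`, `Alt(m)` in `G`, `n ≤ R (m + 1)`
    (∀ R : ℕ, ∃ c : ℕ,
      ∀ (K Γ G : Type) [Field K] [Group Γ] [Finite Γ] [Group G] (n m : ℕ), n ≤ R * (m + 1) →
        ∀ ρ : Γ →* Matrix.GeneralLinearGroup (Fin n) K, Function.Injective ρ →
        ∀ π : Γ →* G, Function.Surjective π → Group.IsSolvable π.ker →
        ∀ f : alternatingGroup (Fin m) →* G, Function.Injective f →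
        UpTo c G) ∧
    -- the classical groups over finite fields
    ∃ c : ℕ, ∀ (F : Type) [Field F] [Finite F] (n : ℕ),
      UpToMod c (Matrix.SpecialLinearGroup (Fin n) F) ∧
      UpToMod c (Matrix.symplecticGroup (Fin n) F) ∧
      (∀ [StarRing F], UpToMod c (Matrix.specialUnitaryGroup (Fin n) F)) ∧
      UpToMod c (commutator (Matrix.orthogonalGroup (Fin n) F)) :=
  ⟨fun R => Pool.Agent.Work.MP_403fb3_h27.main_general R,
    Pool.Agent.Work.MP_403fb3_h27.main_families⟩

end Pool.Agent.Results.MP_403fb3_al.BoundedError
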