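import Pool.Agent.Work.MP_403fb3_lin.Fin4
import Pool.Agent.Work.MP_403fb3_lin.Interface2
import Pool.Agent.Work.MP_403fb3_lin.Interface7
import Pool.Agent.Work.MP_403fb3_lin.ABS
import Pool.Agent.Work.MP_403fb3_lin.GEO
import Pool.Agent.Work.MP_403fb3_lin.PSP
import Pool.Agent.Work.MP_403fb3_lin.QG
import Pool.Agent.Work.MP_403fb3_lin.WRX
import Pool.Agent.Work.MP_403fb3_lin.WGP
import Pool.Agent.Work.MP_403fb3_lin.RGP
import Pool.Agent.Work.MP_403fb3_lin.TF
import Pool.Agent.Work.MP_403fb3_lin.TL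
import Pool.Agent.Work.MP_403fb3_lin.TR
import Pool.Agent.Work.MP_403fb3_lin.HBP
import Pool.Agent.Work.MP_403fb3_lin.RS
import Pool.Agent.Work.MP_403fb3_lin.DEX
import Pool.Agent.Work.MP_403fb3_lin.CNT
import Pool.Agent.Work.MP_403fb3_lin.EXN
import Pool.Agent.Work.MP_403fb3_lin.DUA
import Pool.Agent.Work.MP_403fb3_lin.KAP
import Pool.Agent.Work.MP_403fb3_lin.NIR
import Pool.Agent.Work.MP_403fb3_lin.NIV
import Pool.Agent.Work.MP_403fb3_lin.MAT
import Pool.Agent.Work.MP_403fb3_lin.PAC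
import Pool.Agent.Work.MP_403fb3_lin.B8W
import Pool.Agent.Work.MP_403fb3_lin.B8M
import Pool.Agent.Work.MP_403fb3_lin.B8X
import Pool.Agent.Work.MP_403fb3_lin.B8U
import Pool.Agent.Work.MP_403fb3_lin.B8F
import Pool.Agent.Work.MP_403fb3_lin.UWP
import Pool.Agent.Work.MP_403fb3_lin.URP
import Pool.Agent.Work.MP_403fb3_lin.UB2
import Pool.Agent.Work.MP_403fb3_lin.UB8
import Pool.Agent.Work.MP_403fb3_lin.NIX
import Pool.Agent.Work.MP_403fb3_lin.B_UIS
import Pool.Agent.Work.MP_403fb3_lin.H90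
import Pool.Agent.Work.MP_403fb3_lin.UMT
import Pool.Agent.Work.MP_403fb3_lin.UPC_h54

/-!
# Two-generator soluble groups in the varieties generated by the classical groups

The conclusion of Q1 for explicit ranges of `d`, in the projective special linear, symplectic and
unitary groups over finite fields, and for all `d` in `PSL(2, F)`.
-/

set_option autoImplicit false

namespace Pool.Agent.Results.MP_403fb3_al.LinearGroups

open Subgroup
open Pool.Agent.Work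

/-- The subgroup `K` is soluble of derived length exactly `d`. -/
def HasLength {G : Type} [Group G] (K : Subgroup G) (d : ℕ) : Prop :=
  derivedSeries K d = ⊥ ∧ ∀ m < d, derivedSeries K m ≠ ⊥

/-- The conclusion of Q1 for the group `G` and `d`, in the wording of the frozen statement: some
group generated by two elements satisfies every law of `G` and has derived length exactly `d`. -/
def InVar (G : Type) [Group G] (d : ℕ) : Prop :=
  ∃ (H : Type) (_ : Group H),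
    (∀ (k : ℕ) (w : FreeGroup (Fin k)),
        (∀ f : Fin k → G, FreeGroup.lift f w = 1) →
          ∀ f : Fin k → H, FreeGroup.lift f w = 1) ∧
    (∃ a b : H, Subgroup.closure ({a, b} : Set H) = ⊤) ∧
    derivedSeries H d = ⊥ ∧ ∀ m < d, derivedSeries H m ≠ ⊥

/-- The projective special linear group of degree `n`. -/
abbrev PSL (n : ℕ) (F : Type) [Field F] : Type := Matrix.ProjectiveSpecialLinearGroup (Fin n) F

/-- The projective symplectic group of degree `2 n`. -/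
abbrev PSp (n : ℕ) (F : Type) [Field F] : Type :=
  ↥(Matrix.symplecticGroup (Fin n) F) ⧸ Subgroup.center ↥(Matrix.symplecticGroup (Fin n) F)

/-- The projective special unitary group of degree `n` (with respect to the `star` of `F`). -/
abbrev PSU (n : ℕ) (F : Type) [Field F] [StarRing F] : Type :=
  ↥(Matrix.specialUnitaryGroup (Fin n) F) ⧸ Subgroup.center ↥(Matrix.specialUnitaryGroup (Fin n) F)

theorem wgp : MP_403fb3_lin.S_WGP :=
  MP_403fb3_lin.p_WGP MP_403fb3_lin.p_WRX MP_403fb3_lin.p_TF MP_403fb3_lin.p_TL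

theorem pac : MP_403fb3_lin.S_PAC := MP_403fb3_lin.p_PAC MP_403fb3_lin.p_PSP

theorem mat : MP_403fb3_lin.S_MAT :=
  MP_403fb3_lin.p_MAT (MP_403fb3_lin.p_NIV MP_403fb3_lin.p_DEX
    (MP_403fb3_lin.p_NIR MP_403fb3_lin.p_DEX MP_403fb3_lin.p_CNT
      (MP_403fb3_lin.p_EXN MP_403fb3_lin.p_DEX MP_403fb3_lin.p_CNT) MP_403fb3_lin.p_DUA
      MP_403fb3_lin.p_KAP))

theorem uwp : MP_403fb3_lin.S_UWP :=
  MP_403fb3_lin.p_UWP MP_403fb3_lin.p_WRX MP_403fb3_lin.p_TF MP_403fb3_lin.p_TL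

theorem umt : MP_403fb3_lin.S_UMT :=
  MP_403fb3_lin.p_UMT (MP_403fb3_lin.p_UIS (MP_403fb3_lin.p_NIX MP_403fb3_lin.p_DEX
    (MP_403fb3_lin.p_NIR MP_403fb3_lin.p_DEX MP_403fb3_lin.p_CNT
      (MP_403fb3_lin.p_EXN MP_403fb3_lin.p_DEX MP_403fb3_lin.p_CNT) MP_403fb3_lin.p_DUA
      MP_403fb3_lin.p_KAP))) MP_403fb3_lin.p_H90

theorem b8f : MP_403fb3_lin.S_B8F :=
  MP_403fb3_lin.p_B8F MP_403fb3_lin.p_B8M MP_403fb3_lin.p_B8X MP_403fb3_lin.p_B8U
    MP_403fb3_lin.p_B8W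

/-- from a base pair to all the projective groups -/
theorem fromBase {F : Type} [Field F] [Finite F] {k m e : ℕ} (hk : k.Prime) (hkF : (k : F) ≠ 0)
    (hm : 0 < m) (he : 1 ≤ e) (h : MP_403fb3_lin.GoodP k F (Fin m) e) (a b n d : ℕ) :
    (d ≤ e + 3 + 3 * a + 5 * b → m * 4 ^ a * 9 ^ b + 2 ≤ n → InVar (PSL n F) d ∧ InVar (PSp n F) d) ∧
      True := by
  refine ⟨fun hd hn => ?_, trivial⟩
  exact MP_403fb3_lin.partB wgp MP_403fb3_lin.p_RGP MP_403fb3_lin.p_TR mat pac hk hkF hm he h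
      a b n d hd hn

theorem result :
    -- (1) finite fields of odd characteristic
    (∀ (F : Type) [Field F] [Finite F], (2 : F) ≠ 0 → ∀ a b n d : ℕ,
      (d ≤ 6 + 3 * a + 5 * b ∧ 2 * 4 ^ a * 9 ^ b + 2 ≤ n) ∨
        (d ≤ 10 + 3 * a + 5 * b ∧ 8 * 4 ^ a * 9 ^ b + 2 ≤ n) →
      InVar (PSL n F) d ∧ InVar (PSp n F) d) ∧
    -- finite fields with a primitive cube root of unity
    (∀ (F : Type) [Field F] [Finite F] (ω : F), ω ^ 2 + ω + 1 = 0 → (3 : F) ≠ 0 → ∀ a b n d : ℕ,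
      d ≤ 7 + 3 * a + 5 * b → 3 * 4 ^ a * 9 ^ b + 2 ≤ n → InVar (PSL n F) d ∧ InVar (PSp n F) d) ∧
    -- all finite fields of characteristic not three
    (∀ (F : Type) [Field F] [Finite F], (3 : F) ≠ 0 → ∀ a b n d : ℕ,
      d ≤ 7 + 3 * a + 5 * b → 6 * 4 ^ a * 9 ^ b + 2 ≤ n → InVar (PSL n F) d ∧ InVar (PSp n F) d) ∧
    -- (2) unitary groups over finite fields of odd characteristic with an involution
    (∀ (F : Type) [Field F] [Finite F] [StarRing F], (2 : F) ≠ 0 → (∃ t : F, star t ≠ t) →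
      ∀ a b n d : ℕ, (d ≤ 6 + 3 * a + 5 * b ∧ 2 * 4 ^ a * 9 ^ b + 2 ≤ n) ∨
        (d ≤ 10 + 3 * a + 5 * b ∧ 8 * 4 ^ a * 9 ^ b + 2 ≤ n) → InVar (PSU n F) d) ∧
    -- (3) all `d` for `PSL(2, F)`, for every field
    (∀ (F : Type) [Field F] (S : Subgroup (PSL 2 F)) (d : ℕ), HasLength S d →
      (∃ x ∈ S, ∃ y ∈ S, HasLength (closure {x, y}) d) ∧ InVar (PSL 2 F) d) := by
  refine ⟨?_, ?_, ?_, ?_, ?_⟩
  · rintro F _ _ h2 a b n d (⟨hd, hn⟩ | ⟨hd, hn⟩)
    · exact (fromBase Nat.prime_two (by exact_mod_cast h2) (by norm_num) (by norm_num)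
        (MP_403fb3_lin.p_QG F h2).toP a b n d).1 hd hn
    · exact (fromBase Nat.prime_two (by exact_mod_cast h2) (by norm_num) (by norm_num)
        (b8f F h2) a b n d).1 hd hn
  · intro F _ _ ω hω h3 a b n d hd hn
    exact (fromBase Nat.prime_three (by exact_mod_cast h3) (by norm_num) (by norm_num)
      (MP_403fb3_lin.p_HBP F ω hω h3) a b n d).1 hd hn
  · intro F _ _ h3 a b n d hd hn
    by_cases hω : ∃ ω : F, ω ^ 2 + ω + 1 = 0
    · obtain ⟨ω, hω⟩ := hω
      have h6 : 3 * 4 ^ a * 9 ^ b ≤ 6 * 4 ^ a * 9 ^ b := by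
        gcongr
        norm_num
      exact (fromBase Nat.prime_three (by exact_mod_cast h3) (by norm_num) (by norm_num)
        (MP_403fb3_lin.p_HBP F ω hω h3) a b n d).1 hd (by omega)
    · push Not at hω
      exact (fromBase Nat.prime_three (by exact_mod_cast h3) (by norm_num) (by norm_num)
        (MP_403fb3_lin.p_RS MP_403fb3_lin.p_HBP F h3 hω) a b n d).1 hd hn
  · rintro F _ _ _ h2 ht a b n d (⟨hd, hn⟩ | ⟨hd, hn⟩)
    · exact MP_403fb3_lin.partV uwp MP_403fb3_lin.p_URP MP_403fb3_lin.p_TR umt MP_403fb3_lin.p_UPC_h54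
        h2 ht Nat.prime_two (by exact_mod_cast h2) (by norm_num) (by norm_num)
        (MP_403fb3_lin.p_UB2 F h2 ht) a b n d hd hn
    · exact MP_403fb3_lin.partV uwp MP_403fb3_lin.p_URP MP_403fb3_lin.p_TR umt MP_403fb3_lin.p_UPC_h54
        h2 ht Nat.prime_two (by exact_mod_cast h2) (by norm_num) (by norm_num)
        (MP_403fb3_lin.p_UB8 F h2 ht) a b n d hd hn
  · intro F _ S d h
    have h1 := MP_403fb3_lin.p_ABS (PSL 2 F) S d h fun A h2 h3 h4 h5 =>
      MP_403fb3_lin.p_GEO F S A h2 h3 h4 h5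
    obtain ⟨x, hx, y, hy, h2⟩ := h1
    exact ⟨⟨x, hx, y, hy, h2⟩, MP_403fb3_lin.inVar_exact ⟨x, y, h2⟩⟩

end Pool.Agent.Results.MP_403fb3_al.LinearGroups
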