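import Pool.Agent.Work.MP_403fb3_al.TwoGen

/-!
# Two-generator soluble groups in the variety of a finite group

For a finite group `G` the variety generated by `G` contains a 2-generator soluble group of
derived length exactly `d` if and only if `G` itself has a 2-generator soluble subgroup of derived
length at least `d`.  This turns the question (for each finite simple group `G` and each `d`) into
a question about the subgroups of `G`.
-/

namespace Pool.Agent.Results.MP_403fb3_al.Reduction

open Subgroup

theorem result (G : Type) [Group G] [Finite G] (d : ℕ) :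
    (∃ (H : Type) (_ : Group H),
      (∀ (n : ℕ) (w : FreeGroup (Fin n)),
          (∀ f : Fin n → G, FreeGroup.lift f w = 1) →
            ∀ f : Fin n → H, FreeGroup.lift f w = 1) ∧
      (∃ a b : H, closure ({a, b} : Set H) = ⊤) ∧
      derivedSeries H d = ⊥ ∧ ∀ m < d, derivedSeries H m ≠ ⊥) ↔
    ∃ x y : G, Group.IsSolvable ↥(closure ({x, y} : Set G)) ∧
      ∀ m < d, derivedSeries ↥(closure ({x, y} : Set G)) m ≠ ⊥ :=
  Pool.Agent.Work.MP_403fb3_al.iff_subgroup G d

end Pool.Agent.Results.MP_403fb3_al.Reduction
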